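import Pool.Agent.H69.DG.TDBase

/-!
# Module TD of board dg_modules (MP_3c6455_co)

From one rich region (with a bound depending on the deficiency) to two rich regions.
-/

set_option autoImplicit false

namespace Pool.Agent.H69.DG.TD

open Pool.Agent.H44.DG

/-- TD: from one rich region to two rich regions. -/
def T_TD' : Prop := ∀ (d m : ℕ), ∃ M : ℕ, ∀ n : ℕ, 3 ≤ n →
  (∀ D : Drawing (Fin n), Q2 d m D → Wins 1 2 .spoiler NotHam (.spoiler, 2) D) →
  ∀ D : Drawing (Fin n), Q1 d M D → Wins 1 2 .spoiler NotHam (.spoiler, 2) D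

theorem split_at {V : Type} (P : Multiset V) (k : ℕ) (hk : k ≤ P.card) :
    ∃ A B : Multiset V, P = A + B ∧ A.card = k ∧ B.card = P.card - k := by
  induction P using Quotient.inductionOn with
  | _ l =>
    refine ⟨(l.take k : List V), (l.drop k : List V), ?_, ?_, ?_⟩
    · rw [Multiset.coe_add, List.take_append_drop]
      rfl
    · rw [Multiset.coe_card, List.length_take]
      have : k ≤ l.length := hk
      omega
    · rw [Multiset.coe_card, List.length_drop]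
      rfl

theorem ip_inj_add {V : Type} {P : Multiset V} : ∀ {f g : Region V}, ip P = f + g →
    ∃ Q₁ Q₂, P = Q₁ + Q₂ ∧ f = ip Q₁ ∧ g = ip Q₂ := by
  induction P using Multiset.induction with
  | empty =>
    intro f g h
    have h0 : f + g = 0 := h.symm
    rw [add_eq_zero] at h0
    exact ⟨0, 0, by simp, h0.1, h0.2⟩
  | cons v P ih =>
    intro f g h
    rw [ip_cons] at h
    have hmem : (↑[v] : Cycle V) ∈ f + g := by
      rw [← h]; exact Multiset.mem_cons_self _ _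
    rcases Multiset.mem_add.1 hmem with hm | hm
    · obtain ⟨f', rfl⟩ := Multiset.exists_cons_of_mem hm
      rw [Multiset.cons_add] at h
      obtain ⟨Q₁, Q₂, h1, h2, h3⟩ := ih ((Multiset.cons_inj_right _).1 h)
      exact ⟨v ::ₘ Q₁, Q₂, by rw [h1, Multiset.cons_add], by rw [h2, ip_cons], h3⟩
    · obtain ⟨g', rfl⟩ := Multiset.exists_cons_of_mem hm
      rw [Multiset.add_cons] at h
      obtain ⟨Q₁, Q₂, h1, h2, h3⟩ := ih ((Multiset.cons_inj_right _).1 h)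
      exact ⟨Q₁, v ::ₘ Q₂, by rw [h1, Multiset.add_cons], h2, by rw [h3, ip_cons]⟩

theorem sing_eq {V : Type} {p v : V} {m : List V}
    (h : (↑[p] : Cycle V) = ↑(v :: m)) : v = p ∧ m = [] := by
  have := (Cycle.coe_eq_coe.1 h).perm
  rw [List.singleton_perm] at this
  simp only [List.cons.injEq] at this
  exact ⟨this.1.symm, this.2.symm⟩

theorem ip_inj_cons {V : Type} {P : Multiset V} {v : V} {m : List V} {f : Region V}
    (h : ip P = (↑(v :: m) : Cycle V) ::ₘ f) : m = [] ∧ ∃ Q, P = v ::ₘ Q ∧ f = ip Q := by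
  have hmem : (↑(v :: m) : Cycle V) ∈ ip P := by rw [h]; exact Multiset.mem_cons_self _ _
  obtain ⟨p, hp, he⟩ := mem_ip.1 hmem
  obtain ⟨rfl, rfl⟩ := sing_eq he
  obtain ⟨Q, rfl⟩ := Multiset.exists_cons_of_mem hp
  rw [ip_cons] at h
  exact ⟨rfl, Q, rfl, ((Multiset.cons_inj_right _).1 h).symm⟩

theorem rot4 {V : Type} {p q r s u : V} {l : List V}
    (h : (↑[p, q, r, s] : Cycle V) = ↑(u :: l)) :
    (u = p ∧ l = [q, r, s]) ∨ (u = q ∧ l = [r, s, p]) ∨ (u = r ∧ l = [s, p, q]) ∨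
      (u = s ∧ l = [p, q, r]) := by
  obtain ⟨k, hk⟩ := Cycle.coe_eq_coe.1 h
  rw [← List.rotate_mod] at hk
  have hj : k % [p, q, r, s].length < 4 := Nat.mod_lt _ (by simp)
  generalize k % [p, q, r, s].length = j at hk hj
  interval_cases j
  · simp only [List.rotate_zero, List.cons.injEq] at hk
    left; exact ⟨hk.1.symm, hk.2.symm⟩
  · simp [List.rotate] at hk
    right; left; exact ⟨hk.1.symm, hk.2.symm⟩
  · simp [List.rotate] at hk
    right; right; left; exact ⟨hk.1.symm, hk.2.symm⟩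
  · simp [List.rotate] at hk
    right; right; right; exact ⟨hk.1.symm, hk.2.symm⟩

theorem two {α : Type*} {A B Φ : α} {G F : Multiset α} (h : A ::ₘ B ::ₘ G = Φ ::ₘ F) :
    (∃ F', F = A ::ₘ F' ∧ B ::ₘ G = Φ ::ₘ F') ∨ (∃ F', F = B ::ₘ F' ∧ A ::ₘ G = Φ ::ₘ F') := by
  rw [Multiset.cons_eq_cons] at h
  rcases h with ⟨h1, h2⟩ | ⟨_, cs, h1, h2⟩
  · exact Or.inr ⟨G, h2.symm, by rw [h1]⟩
  · exact Or.inl ⟨cs, h2, h1⟩

variable {n : ℕ}

/-- There is a legal edge if two isolated points lie in one region. -/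
theorem exists_move {D : Drawing (Fin n)} (hE : EInv D) (hI : Iso D.regions) {X : Cycle (Fin n)}
    {P : Multiset (Fin n)} {J : Region (Fin n)} {F : Multiset (Region (Fin n))}
    (hreg : D.regions = (X ::ₘ (ip P + J)) ::ₘ F) (hP : 2 ≤ P.card) : ∃ D', Draw D D' := by
  obtain ⟨p, hp⟩ := Multiset.card_pos_iff_exists_mem.1 (show 0 < P.card by omega)
  obtain ⟨P', rfl⟩ := Multiset.exists_cons_of_mem hp
  rw [Multiset.card_cons] at hP
  obtain ⟨q, hq⟩ := Multiset.card_pos_iff_exists_mem.1 (show 0 < P'.card by omega)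
  obtain ⟨P'', rfl⟩ := Multiset.exists_cons_of_mem hq
  obtain ⟨D', hd, _⟩ := harmless hE hI hreg
  exact ⟨D', hd⟩

theorem Rich.mono {V : Type} {m m' : ℕ} {S : Finset V} {Φ : Region V} (h : Rich m S Φ)
    (hm : m' ≤ m) : Rich m' S Φ := by
  obtain ⟨a, b, c, P, J, ha, hb, hc, hab, hbc, hca, hΦ, hP, hPS⟩ := h
  exact ⟨a, b, c, P, J, ha, hb, hc, hab, hbc, hca, hΦ, hm.trans hP, hPS⟩

/-- Two rich regions, Builder to draw. -/
theorem tb2 (hB : T_TB) {d M : ℕ}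
    (hwin : ∀ D : Drawing (Fin n), Q1 d M D → Wins 1 2 .spoiler NotHam (.spoiler, 2) D)
    {D : Drawing (Fin n)} {S : Finset (Fin n)} {χ : Fin n → ℕ} (hG : Good D S χ d)
    {Φ₁ Φ₂ : Region (Fin n)} {G : Multiset (Region (Fin n))}
    (hreg : D.regions = Φ₁ ::ₘ Φ₂ ::ₘ G) (h1 : Rich (M + 2) S Φ₁) (h2 : Rich (M + 2) S Φ₂) :
    Wins 1 2 .spoiler NotHam (.builder, 1) D := by
  refine Wins.opp .builder (by decide) 0 D ?_ ?_
  · obtain ⟨a, b, c, P, J, ha, hb, hc, hab, hbc, hca, rfl, hP, hPS⟩ := h1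
    exact exists_move (P := P) hG.e hG.i hreg (by omega)
  · intro D' hd
    show Wins 1 2 .spoiler NotHam (.spoiler, 2) D'
    have hG' := hG.draw hB hd
    obtain ⟨u, v, _, _, _, Φ, Ψ, F, hr, hr', _⟩ := hd
    rw [hreg] at hr
    apply hwin
    refine ⟨hG'.e, hG'.i, S, χ, ?_⟩
    rcases two hr with ⟨F', hF', _⟩ | ⟨F', hF', _⟩
    · exact ⟨Φ₁, Ψ + F', by rw [hr', hF', Multiset.add_cons], hG'.h, hG'.c,
        Rich.mono h1 (by omega)⟩
    · exact ⟨Φ₂, Ψ + F', by rw [hr', hF', Multiset.add_cons], hG'.h, hG'.c,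
        Rich.mono h2 (by omega)⟩

/-- Two rich regions, Spoiler to draw one edge. -/
theorem tt (hB : T_TB) {d M : ℕ}
    (hwin : ∀ D : Drawing (Fin n), Q1 d M D → Wins 1 2 .spoiler NotHam (.spoiler, 2) D)
    {D : Drawing (Fin n)} {S : Finset (Fin n)} {χ : Fin n → ℕ} (hG : Good D S χ d)
    {Φ₁ Φ₂ : Region (Fin n)} {G : Multiset (Region (Fin n))}
    (hreg : D.regions = Φ₁ ::ₘ Φ₂ ::ₘ G) (h1 : Rich (M + 4) S Φ₁) (h2 : Rich (M + 4) S Φ₂) :
    Wins 1 2 .spoiler NotHam (.spoiler, 1) D := by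
  obtain ⟨a, b, c, P, J, ha, hb, hc, hab, hbc, hca, rfl, hP, hPS⟩ := h1
  obtain ⟨p, hp⟩ := Multiset.card_pos_iff_exists_mem.1 (show 0 < P.card by omega)
  obtain ⟨P', rfl⟩ := Multiset.exists_cons_of_mem hp
  rw [Multiset.card_cons] at hP
  obtain ⟨q, hq⟩ := Multiset.card_pos_iff_exists_mem.1 (show 0 < P'.card by omega)
  obtain ⟨P'', rfl⟩ := Multiset.exists_cons_of_mem hq
  rw [Multiset.card_cons] at hP
  obtain ⟨D', hd, hr⟩ := harmless (P := P'') (p := p) (q := q) hG.e hG.i hreg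
  refine Wins.own 0 D D' hd ?_
  show Wins 1 2 .spoiler NotHam (.builder, 1) D'
  have hG' := hG.draw hB hd
  refine tb2 hB hwin hG' hr ?_ (Rich.mono h2 (by omega))
  exact ⟨a, b, c, P'', (↑[p, q] : Cycle (Fin n)) ::ₘ J, ha, hb, hc, hab, hbc, hca, rfl, by omega,
    fun v hv => hPS v (Multiset.mem_cons_of_mem (Multiset.mem_cons_of_mem hv))⟩

/-- Chord, then a passive move: the cut off triangle and another rich region. -/
theorem chord_tt (hB : T_TB) {d M : ℕ}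
    (hwin : ∀ D : Drawing (Fin n), Q1 d M D → Wins 1 2 .spoiler NotHam (.spoiler, 2) D)
    {D : Drawing (Fin n)} {S : Finset (Fin n)} {χ : Fin n → ℕ} (hG : Good D S χ (d + 1))
    {u t v : Fin n} {m : List (Fin n)} {P : Multiset (Fin n)}
    {J : Region (Fin n)} {Φ : Region (Fin n)} {F : Multiset (Region (Fin n))}
    (hreg : D.regions = ((↑(u :: t :: v :: m) : Cycle (Fin n)) ::ₘ (ip P + J)) ::ₘ Φ ::ₘ F)
    (hu : u ∈ S) (ht : t ∈ S) (hv : v ∈ S) (hut : u ≠ t) (htv : t ≠ v) (huv : u ≠ v)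
    (hna : ¬ Adj D.regions u v) (hP : ∀ p ∈ P, p ∉ S) (hc : M + 5 ≤ P.card)
    (hΦ : Rich (M + 4) S Φ) : Wins 1 2 .spoiler NotHam (.spoiler, 2) D := by
  obtain ⟨P₁, P₂, rfl, h1, h2⟩ := split_at P (M + 4) (by omega)
  obtain ⟨D', χ', hd, hr, hG'⟩ := chord hB hG hreg hu ht hv huv hna
    (by rintro rfl; simp at h1) (by rintro rfl; simp at h2 hc; omega) hP
  refine Wins.own 1 D D' hd ?_
  show Wins 1 2 .spoiler NotHam (.spoiler, 1) D'
  refine tt hB hwin hG' (Φ₁ := (↑[u, t, v] : Cycle (Fin n)) ::ₘ ip P₁) (Φ₂ := Φ)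
    (G := ((↑(v :: (m ++ [u])) : Cycle (Fin n)) ::ₘ (ip P₂ + J)) ::ₘ F) ?_ ?_ hΦ
  · rw [hr, Multiset.cons_swap Φ]
  · exact ⟨u, t, v, P₁, 0, hu, ht, hv, hut, htv, huv.symm, by rw [add_zero]; rfl, by omega,
      fun p hp => hP p (Multiset.mem_add.2 (Or.inl hp))⟩

/-- Chord in a quadrangle, then a passive move. -/
theorem chord_quad (hB : T_TB) {d M : ℕ}
    (hwin : ∀ D : Drawing (Fin n), Q1 d M D → Wins 1 2 .spoiler NotHam (.spoiler, 2) D)
    {D : Drawing (Fin n)} {S : Finset (Fin n)} {χ : Fin n → ℕ} (hG : Good D S χ (d + 1))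
    {u t v w : Fin n} {P : Multiset (Fin n)}
    {J : Region (Fin n)} {F : Multiset (Region (Fin n))}
    (hreg : D.regions = ((↑[u, t, v, w] : Cycle (Fin n)) ::ₘ (ip P + J)) ::ₘ F)
    (hu : u ∈ S) (ht : t ∈ S) (hv : v ∈ S) (hw : w ∈ S) (hut : u ≠ t) (htv : t ≠ v) (huv : u ≠ v)
    (hvw : v ≠ w) (hwu : w ≠ u)
    (hna : ¬ Adj D.regions u v) (hP : ∀ p ∈ P, p ∉ S) (hc : 2 * M + 8 ≤ P.card) :
    Wins 1 2 .spoiler NotHam (.spoiler, 2) D := by
  obtain ⟨P₁, P₂, rfl, h1, h2⟩ := split_at P (M + 4) (by omega)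
  obtain ⟨D', χ', hd, hr, hG'⟩ := chord hB hG hreg hu ht hv huv hna
    (by rintro rfl; simp at h1) (by rintro rfl; simp at h2 hc; omega) hP
  refine Wins.own 1 D D' hd ?_
  show Wins 1 2 .spoiler NotHam (.spoiler, 1) D'
  refine tt hB hwin hG' hr ?_ ?_
  · exact ⟨u, t, v, P₁, 0, hu, ht, hv, hut, htv, huv.symm, by rw [add_zero]; rfl, by omega,
      fun p hp => hP p (Multiset.mem_add.2 (Or.inl hp))⟩
  · exact ⟨v, w, u, P₂, J, hv, hw, hu, hvw, hwu, huv, rfl, by omega,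
      fun p hp => hP p (Multiset.mem_add.2 (Or.inr hp))⟩

/-- A pair that is not joined stays so if the move happens in a region that does not see both. -/
theorem nadj_of {D D' : Drawing (Fin n)} (hE : EInv D') {u v p q : Fin n}
    (hins : D'.edges = insert s(u, v) D.edges) (hpq : p ≠ q) (h : s(p, q) ∉ D.edges)
    {Φ : Region (Fin n)} {Ψ : Multiset (Region (Fin n))} (hm : RegionMove u v Φ Ψ)
    (hne : ¬ (InR {Φ} p ∧ InR {Φ} q)) : ¬ Adj D'.regions p q := by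
  rw [← hE p q hpq, hins, Set.mem_insert_iff]
  have hcor : InR {Φ} u ∧ InR {Φ} v := by
    rw [← hm.corner, ← hm.corner]
    have := (hm.adj u v).2 (Or.inr (Or.inl ⟨rfl, rfl⟩))
    exact ⟨this.left, this.right⟩
  rintro (h' | h')
  · rw [Sym2.eq_iff] at h'
    rcases h' with ⟨rfl, rfl⟩ | ⟨rfl, rfl⟩
    · exact hne hcor
    · exact hne hcor.symm
  · exact h h'

theorem not_inR_quad {S : Finset (Fin n)} {p q r s z : Fin n} {R : Multiset (Fin n)}
    (hp : z ≠ p) (hq : z ≠ q) (hr : z ≠ r) (hs : z ≠ s) (hz : z ∈ S) (hR : ∀ y ∈ R, y ∉ S) :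
    ¬ InR {((↑[p, q, r, s] : Cycle (Fin n)) ::ₘ (ip R + 0))} z := by
  rw [inR_sing]
  rintro ⟨w, hw, hzw⟩
  rcases Multiset.mem_cons.1 hw with rfl | hw
  · simp only [Cycle.mem_coe_iff, List.mem_cons, List.not_mem_nil, or_false] at hzw
    tauto
  · rw [add_zero] at hw
    exact hR z (inR_ip.1 ⟨w, hw, hzw⟩) hz

/-- Second attack: the quadrangle is intact. -/
theorem attack2 (hB : T_TB) {d M : ℕ}
    (hwin : ∀ D : Drawing (Fin n), Q1 d M D → Wins 1 2 .spoiler NotHam (.spoiler, 2) D)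
    {D : Drawing (Fin n)} {S : Finset (Fin n)} {χ : Fin n → ℕ} (hG : Good D S χ (d + 1))
    {b c a x : Fin n} {P : Multiset (Fin n)} {H : Multiset (Region (Fin n))}
    (hreg : D.regions = ((↑[b, c, a, x] : Cycle (Fin n)) ::ₘ ip P) ::ₘ H)
    (hb : b ∈ S) (hc : c ∈ S) (ha : a ∈ S) (hx : x ∈ S)
    (hbc : b ≠ c) (hca : c ≠ a) (hax : a ≠ x) (hxb : x ≠ b) (hab : a ≠ b) (hcx : c ≠ x)
    (hP : ∀ p ∈ P, p ∉ S) (hcard : 4 * M + 20 ≤ P.card) :
    Wins 1 2 .spoiler NotHam (.spoiler, 2) D := by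
  obtain ⟨y, hy⟩ := Multiset.card_pos_iff_exists_mem.1 (show 0 < P.card by omega)
  obtain ⟨P', rfl⟩ := Multiset.exists_cons_of_mem hy
  rw [Multiset.card_cons] at hcard
  obtain ⟨R₁, R₂, rfl, h1, h2⟩ := split_at P' (2 * M + 8) (by omega)
  have hyS : y ∉ S := hP y hy
  have hreg' : D.regions = ((↑(b :: ([c] ++ a :: [x])) : Cycle (Fin n)) ::ₘ
      (ip (y ::ₘ (R₁ + R₂)) + 0)) ::ₘ H := by
    rw [hreg, add_zero]; rfl
  have hyR : ∀ p ∈ R₁ + R₂, p ∉ insert y S := by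
    have hreg'' : D.regions = ((↑[b, c, a, x] : Cycle (Fin n)) ::ₘ
      (ip ({y} + (R₁ + R₂)) + 0)) ::ₘ H := by
      rw [hreg, add_zero, Multiset.singleton_add]
    have := iso_disj hG.i hreg'' (Multiset.mem_singleton_self y)
    intro p hp hpS
    rcases Finset.mem_insert.1 hpS with rfl | h
    · exact this hp
    · exact hP p (Multiset.mem_cons_of_mem hp) h
  obtain ⟨D₁, D₂, χ', hd1, hd2, hr2, he2, hny, hnH, hG2⟩ := two_edges hB hG hreg' hb ha
    (by simpa using hx) hab.symm (by rintro rfl; simp at h1) (by rintro rfl; simp at h2 hcard; omega)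
    hP
  have hyb : y ≠ b := fun h => hyS (h ▸ hb)
  have hyc : y ≠ c := fun h => hyS (h ▸ hc)
  have hya : y ≠ a := fun h => hyS (h ▸ ha)
  have hyx : y ≠ x := fun h => hyS (h ▸ hx)
  have hr2' : D₂.regions = ((↑[x, b, y, a] : Cycle (Fin n)) ::ₘ (ip R₂ + 0)) ::ₘ
      ((↑[y, b, c, a] : Cycle (Fin n)) ::ₘ (ip R₁ + 0)) ::ₘ H := by
    rw [hr2, add_zero, add_zero]
    congr 2
    exact coe_rot [a] [x, b, y]
  have hyS' : y ∈ insert y S := Finset.mem_insert_self _ _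
  have hbS' : b ∈ insert y S := Finset.mem_insert_of_mem hb
  have hcS' : c ∈ insert y S := Finset.mem_insert_of_mem hc
  have haS' : a ∈ insert y S := Finset.mem_insert_of_mem ha
  have hxS' : x ∈ insert y S := Finset.mem_insert_of_mem hx
  have hR1 : ∀ p ∈ R₁, p ∉ insert y S := fun p hp => hyR p (Multiset.mem_add.2 (Or.inl hp))
  have hR2 : ∀ p ∈ R₂, p ∉ insert y S := fun p hp => hyR p (Multiset.mem_add.2 (Or.inr hp))
  have hcard2 : 2 * M + 8 ≤ R₂.card := by rw [h2]; omega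
  have hnyc : s(y, c) ∉ D₂.edges := by
    rw [he2, Set.mem_insert_iff, Set.mem_insert_iff]
    rintro (h | h | h)
    · rw [Sym2.eq_iff] at h
      rcases h with ⟨_, h⟩ | ⟨h, _⟩
      · exact hca h
      · exact hya h
    · rw [Sym2.eq_iff] at h
      rcases h with ⟨h, _⟩ | ⟨_, h⟩
      · exact hyb h
      · exact hbc h.symm
    · exact hny c ((hG.e y c hyc).1 h)
  have hnxy : s(x, y) ∉ D₂.edges := by
    rw [he2, Set.mem_insert_iff, Set.mem_insert_iff]
    rintro (h | h | h)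
    · rw [Sym2.eq_iff] at h
      rcases h with ⟨h, _⟩ | ⟨h, _⟩
      · exact hyx h.symm
      · exact hax h.symm
    · rw [Sym2.eq_iff] at h
      rcases h with ⟨h, _⟩ | ⟨h, _⟩
      · exact hxb h
      · exact hyx h.symm
    · rw [Sym2.eq_swap] at h
      exact hny x ((hG.e y x hyx).1 h)
  refine Wins.own 1 D D₁ hd1 ?_
  show Wins 1 2 .spoiler NotHam (.spoiler, 1) D₁
  refine Wins.own 0 D₁ D₂ hd2 ?_
  show Wins 1 2 .spoiler NotHam (.builder, 1) D₂
  refine Wins.opp .builder (by decide) 0 D₂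
    (exists_move hG2.e hG2.i hr2' (by omega)) ?_
  intro D₃ hd3
  show Wins 1 2 .spoiler NotHam (.spoiler, 2) D₃
  have hG3 := hG2.draw hB hd3
  obtain ⟨u, v, huv, _, hins, Φ, Ψ, F, hr, hr', hm⟩ := hd3
  rw [hr2'] at hr
  rcases two hr with ⟨F', hF', hF''⟩ | ⟨F', hF', hF''⟩
  · -- the quadrangle x b y a is intact
    have hr3 : D₃.regions = ((↑[x, b, y, a] : Cycle (Fin n)) ::ₘ (ip R₂ + 0)) ::ₘ (Ψ + F') := by
      rw [hr', hF', Multiset.add_cons]
    refine chord_quad hB hwin hG3 hr3 hxS' hbS' hyS' haS' hxb hyb.symm hyx.symm hya hax ?_ hR2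
      hcard2
    refine nadj_of hG3.e hins hyx.symm hnxy hm ?_
    rintro ⟨h3, h4⟩
    have hmem : Φ ∈ ((↑[y, b, c, a] : Cycle (Fin n)) ::ₘ (ip R₁ + 0)) ::ₘ H := by
      rw [hF'']; exact Multiset.mem_cons_self _ _
    rcases Multiset.mem_cons.1 hmem with rfl | hmem
    · exact not_inR_quad hyx.symm hxb hcx.symm hax.symm hxS' hR1 h3
    · apply hnH
      obtain ⟨w, hw, hyw⟩ := inR_sing.1 h4
      exact ⟨Φ, hmem, w, hw, hyw⟩
  · -- the quadrangle y b c a is intact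
    have hr3 : D₃.regions = ((↑[y, b, c, a] : Cycle (Fin n)) ::ₘ (ip R₁ + 0)) ::ₘ (Ψ + F') := by
      rw [hr', hF', Multiset.add_cons]
    refine chord_quad hB hwin hG3 hr3 hyS' hbS' hcS' haS' hyb hbc hyc hca hya.symm ?_ hR1
      (by omega)
    refine nadj_of hG3.e hins hyc hnyc hm ?_
    rintro ⟨h3, h4⟩
    have hmem : Φ ∈ ((↑[x, b, y, a] : Cycle (Fin n)) ::ₘ (ip R₂ + 0)) ::ₘ H := by
      rw [hF'']; exact Multiset.mem_cons_self _ _
    rcases Multiset.mem_cons.1 hmem with rfl | hmem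
    · exact not_inR_quad hcx hbc.symm hyc.symm hca hcS' hR2 h4
    · apply hnH
      obtain ⟨w, hw, hyw⟩ := inR_sing.1 h3
      exact ⟨Φ, hmem, w, hw, hyw⟩

theorem split3 {V : Type} {l m : List V} {v p q r : V} (h : l ++ v :: m = [p, q, r]) :
    (l = [] ∧ v = p ∧ m = [q, r]) ∨ (l = [p] ∧ v = q ∧ m = [r]) ∨
      (l = [p, q] ∧ v = r ∧ m = []) := by
  rcases l with _ | ⟨l1, _ | ⟨l2, _ | ⟨l3, l⟩⟩⟩
  · simp at h; simp [h]
  · simp at h; simp [h]
  · simp at h; simp [h]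
  · simp at h

theorem rich_tri {m : ℕ} {S : Finset (Fin n)} {p q r : Fin n} {Q : Multiset (Fin n)}
    (hp : p ∈ S) (hq : q ∈ S) (hr : r ∈ S) (hpq : p ≠ q) (hqr : q ≠ r) (hrp : r ≠ p)
    (hm : m ≤ Q.card) (hQ : ∀ v ∈ Q, v ∉ S) :
    Rich m S ((↑[p, q, r] : Cycle (Fin n)) ::ₘ ip Q) :=
  ⟨p, q, r, Q, 0, hp, hq, hr, hpq, hqr, hrp, by rw [add_zero]; rfl, hm, hQ⟩

/-- After a chord of Builder in the quadrangle: two rich regions without loss. -/
theorem alpha1 {d m : ℕ} {D : Drawing (Fin n)} {S : Finset (Fin n)} {χ : Fin n → ℕ}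
    (hG : Good D S χ d) {a b c x : Fin n} {Q₁ Q₂ : Multiset (Fin n)} {A : Region (Fin n)}
    {G : Multiset (Region (Fin n))}
    (hreg : D.regions = ((↑[c, a, x] : Cycle (Fin n)) ::ₘ ip Q₁) ::ₘ
      ((↑[x, b, c] : Cycle (Fin n)) ::ₘ ip Q₂) ::ₘ A ::ₘ G)
    (hb : b ∈ S) (hc : c ∈ S) (ha : a ∈ S) (hx : x ∈ S)
    (hbc : b ≠ c) (hca : c ≠ a) (hax : a ≠ x) (hxb : x ≠ b) (hcx : c ≠ x)
    (hQ1 : ∀ v ∈ Q₁, v ∉ S) (hQ2 : ∀ v ∈ Q₂, v ∉ S) (hcard : 2 * m ≤ Q₁.card + Q₂.card)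
    (hA : Rich m S A) : Q2 d m D := by
  refine ⟨hG.e, hG.i, S, χ, ?_⟩
  by_cases h : m ≤ Q₁.card
  · refine ⟨(↑[c, a, x] : Cycle (Fin n)) ::ₘ ip Q₁, A,
      ((↑[x, b, c] : Cycle (Fin n)) ::ₘ ip Q₂) ::ₘ G, ?_, hG.h, hG.c,
      rich_tri hc ha hx hca hax hcx.symm h hQ1, hA⟩
    rw [hreg, Multiset.cons_swap A]
  · refine ⟨(↑[x, b, c] : Cycle (Fin n)) ::ₘ ip Q₂, A,
      ((↑[c, a, x] : Cycle (Fin n)) ::ₘ ip Q₁) ::ₘ G, ?_, hG.h, hG.c,
      rich_tri hx hb hc hxb hbc hcx (by omega) hQ2, hA⟩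
    rw [hreg, Multiset.cons_swap A, Multiset.cons_swap (_ ::ₘ ip Q₁)]

/-- The step. -/
theorem step (hB : T_TB) {d m M : ℕ}
    (hQ2 : ∀ D : Drawing (Fin n), Q2 (d + 1) m D → Wins 1 2 .spoiler NotHam (.spoiler, 2) D)
    (hwin : ∀ D : Drawing (Fin n), Q1 d M D → Wins 1 2 .spoiler NotHam (.spoiler, 2) D)
    {D : Drawing (Fin n)} (hQ : Q1 (d + 1) (20 * (M + m + 10)) D) :
    Wins 1 2 .spoiler NotHam (.spoiler, 2) D := by
  obtain ⟨hE, hI, S, χ, Φ, G, hreg, hH, hcd, a, b, c, P, J, ha, hb, hc, hab, hbc, hca, rfl, hP,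
    hPS⟩ := hQ
  have hG : Good D S χ (d + 1) := ⟨hE, hI, hH, hcd⟩
  obtain ⟨x, hxP⟩ := Multiset.card_pos_iff_exists_mem.1 (show 0 < P.card by omega)
  obtain ⟨P', rfl⟩ := Multiset.exists_cons_of_mem hxP
  rw [Multiset.card_cons] at hP
  obtain ⟨P₁, P₂, rfl, h1, h2⟩ := split_at P' (M + m + 10) (by omega)
  have hxS : x ∉ S := hPS x hxP
  have hreg' : D.regions = ((↑(a :: ([] ++ b :: [c])) : Cycle (Fin n)) ::ₘ
      (ip (x ::ₘ (P₁ + P₂)) + J)) ::ₘ G := hreg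
  have hxR : ∀ p ∈ P₁ + P₂, p ∉ insert x S := by
    have hreg'' : D.regions = ((↑[a, b, c] : Cycle (Fin n)) ::ₘ
      (ip ({x} + (P₁ + P₂)) + J)) ::ₘ G := by
      rw [Multiset.singleton_add]; exact hreg
    have := iso_disj hG.i hreg'' (Multiset.mem_singleton_self x)
    intro p hp hpS
    rcases Finset.mem_insert.1 hpS with rfl | h
    · exact this hp
    · exact hPS p (Multiset.mem_cons_of_mem hp) h
  obtain ⟨D₁, D₂, χ', hd1, hd2, hr2, he2, hnx, hnG, hG2⟩ := two_edges hB hG hreg' ha hb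
    (by simpa using hc) hab (by rintro rfl; simp at h1) (by rintro rfl; simp at h2 hP; omega) hPS
  have hxa : x ≠ a := fun h => hxS (h ▸ ha)
  have hxb : x ≠ b := fun h => hxS (h ▸ hb)
  have hxc : x ≠ c := fun h => hxS (h ▸ hc)
  have hr2' : D₂.regions = ((↑[b, c, a, x] : Cycle (Fin n)) ::ₘ ip P₂) ::ₘ
      ((↑[x, a, b] : Cycle (Fin n)) ::ₘ (ip P₁ + J)) ::ₘ G := hr2
  set A : Region (Fin n) := (↑[x, a, b] : Cycle (Fin n)) ::ₘ (ip P₁ + J) with hAdef
  have hxS' : x ∈ insert x S := Finset.mem_insert_self _ _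
  have haS' : a ∈ insert x S := Finset.mem_insert_of_mem ha
  have hbS' : b ∈ insert x S := Finset.mem_insert_of_mem hb
  have hcS' : c ∈ insert x S := Finset.mem_insert_of_mem hc
  have hP1 : ∀ p ∈ P₁, p ∉ insert x S := fun p hp => hxR p (Multiset.mem_add.2 (Or.inl hp))
  have hP2 : ∀ p ∈ P₂, p ∉ insert x S := fun p hp => hxR p (Multiset.mem_add.2 (Or.inr hp))
  have hA : Rich (M + m + 10) (insert x S) A :=
    ⟨x, a, b, P₁, J, hxS', haS', hbS', hxa, hab, hxb.symm, rfl, by omega, hP1⟩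
  have hcard2 : 4 * M + 4 * m + 40 ≤ P₂.card := by rw [h2]; omega
  have hncx : s(c, x) ∉ D₂.edges := by
    rw [he2, Set.mem_insert_iff, Set.mem_insert_iff]
    rintro (h | h | h)
    · rw [Sym2.eq_iff] at h
      rcases h with ⟨h, _⟩ | ⟨h, _⟩
      · exact hxc h.symm
      · exact hbc h.symm
    · rw [Sym2.eq_iff] at h
      rcases h with ⟨h, _⟩ | ⟨h, _⟩
      · exact hca h
      · exact hxc h.symm
    · rw [Sym2.eq_swap] at h
      exact hnx c ((hG.e x c hxc).1 h)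
  -- the five adjacent pairs
  have hBd : ∀ y z, y ≠ z → IsDart (↑[b, c, a, x] : Cycle (Fin n)) y z → s(y, z) ∈ D₂.edges := by
    intro y z hyz hd
    rw [hG2.e y z hyz, hr2']
    exact ⟨_, Multiset.mem_cons_self _ _, _, Multiset.mem_cons_self _ _, Or.inl hd⟩
  have hebc : s(b, c) ∈ D₂.edges := hBd b c hbc ⟨[a, x], rfl⟩
  have heca : s(c, a) ∈ D₂.edges := hBd c a hca ⟨[x, b], coe_rot [b] [c, a, x]⟩
  have heax : s(a, x) ∈ D₂.edges := hBd a x hxa.symm ⟨[b, c], coe_rot [b, c] [a, x]⟩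
  have hexb : s(x, b) ∈ D₂.edges := hBd x b hxb ⟨[c, a], coe_rot [b, c, a] [x]⟩
  have heab : s(a, b) ∈ D₂.edges := by
    rw [hG2.e a b hab, hr2']
    exact ⟨A, Multiset.mem_cons_of_mem (Multiset.mem_cons_self _ _), _,
      Multiset.mem_cons_self _ _, Or.inl ⟨[x], coe_rot [x] [a, b]⟩⟩
  refine Wins.own 1 D D₁ hd1 ?_
  show Wins 1 2 .spoiler NotHam (.spoiler, 1) D₁
  refine Wins.own 0 D₁ D₂ hd2 ?_
  show Wins 1 2 .spoiler NotHam (.builder, 1) D₂
  refine Wins.opp .builder (by decide) 0 D₂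
    (exists_move (J := 0) (P := P₂) hG2.e hG2.i (by rw [add_zero]; exact hr2') (by omega)) ?_
  intro D₃ hd3
  show Wins 1 2 .spoiler NotHam (.spoiler, 2) D₃
  have hG3 := hG2.draw hB hd3
  obtain ⟨u, v, huv, hnot, hins, Φ, Ψ, F, hr, hr', hm⟩ := hd3
  have hncx3 : (∀ p, p ∈ P₂ → (u = p ∨ v = p) → ¬ Adj D₃.regions c x) := by
    intro p hp hup
    have hpS := hP2 p hp
    rw [← hG3.e c x hxc.symm, hins, Set.mem_insert_iff]
    rintro (h | h)
    · rw [Sym2.eq_iff] at h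
      rcases h with ⟨rfl, rfl⟩ | ⟨rfl, rfl⟩
      · rcases hup with rfl | rfl
        · exact hpS hcS'
        · exact hpS hxS'
      · rcases hup with rfl | rfl
        · exact hpS hxS'
        · exact hpS hcS'
    · exact hncx h
  rw [hr2'] at hr
  rw [Multiset.cons_eq_cons] at hr
  rcases hr with ⟨rfl, rfl⟩ | ⟨_, cs, hr3, hr4⟩
  · -- Builder plays in the quadrangle
    rcases Pool.Agent.H33.DG.INV.pf_INV _ _ _ _ _ _ hm with
      ⟨l, m', fl₁, fl₂, hX, hfl, rfl⟩ | ⟨u', v', l, m', fl', huv', hX, hfl, rfl⟩ |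
      ⟨l, m', fl', hfl, rfl⟩ | ⟨l, m', hfl⟩
    · obtain ⟨Q₁, Q₂, rfl, rfl, rfl⟩ := ip_inj_add hfl
      have hQ1 : ∀ p ∈ Q₁, p ∉ insert x S := fun p hp => hP2 p (Multiset.mem_add.2 (Or.inl hp))
      have hQ2' : ∀ p ∈ Q₂, p ∉ insert x S := fun p hp => hP2 p (Multiset.mem_add.2 (Or.inr hp))
      rw [Multiset.card_add] at hcard2
      rw [Multiset.insert_eq_cons, Multiset.cons_add, Multiset.singleton_add] at hr'
      have sw : ∀ y z : Fin n, s(y, z) ∈ D₂.edges → s(z, y) ∈ D₂.edges := by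
        intro y z h; rwa [Sym2.eq_swap]
      rcases rot4 hX with ⟨rfl, h⟩ | ⟨rfl, h⟩ | ⟨rfl, h⟩ | ⟨rfl, h⟩
      · rcases split3 h with ⟨rfl, rfl, rfl⟩ | ⟨rfl, rfl, rfl⟩ | ⟨rfl, rfl, rfl⟩
        · exact absurd hebc hnot
        · exact absurd (sw _ _ heab) hnot
        · exact absurd (sw _ _ hexb) hnot
      · rcases split3 h with ⟨rfl, rfl, rfl⟩ | ⟨rfl, rfl, rfl⟩ | ⟨rfl, rfl, rfl⟩
        · exact absurd heca hnot
        · -- u = c, v = x
          apply hQ2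
          exact alpha1 hG3 hr' hbS' hcS' haS' hxS' hbc hca hxa.symm hxb hxc.symm hQ1 hQ2'
            (by omega) (Rich.mono hA (by omega))
        · exact absurd (sw _ _ hebc) hnot
      · rcases split3 h with ⟨rfl, rfl, rfl⟩ | ⟨rfl, rfl, rfl⟩ | ⟨rfl, rfl, rfl⟩
        · exact absurd heax hnot
        · exact absurd heab hnot
        · exact absurd (sw _ _ heca) hnot
      · rcases split3 h with ⟨rfl, rfl, rfl⟩ | ⟨rfl, rfl, rfl⟩ | ⟨rfl, rfl, rfl⟩
        · exact absurd hexb hnot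
        · -- u = x, v = c
          apply hQ2
          rw [Multiset.cons_swap] at hr'
          exact alpha1 hG3 hr' hbS' hcS' haS' hxS' hbc hca hxa.symm hxb hxc.symm hQ2' hQ1
            (by omega) (Rich.mono hA (by omega))
        · exact absurd (sw _ _ heax) hnot
    · obtain ⟨rfl, Q, rfl, rfl⟩ := ip_inj_cons hfl
      have hQ : ∀ p ∈ Q, p ∉ insert x S := fun p hp => hP2 p (Multiset.mem_cons_of_mem hp)
      have hna := hncx3 v' (Multiset.mem_cons_self _ _) (by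
        rcases huv' with ⟨_, h⟩ | ⟨_, h⟩
        · exact Or.inr h.symm
        · exact Or.inl h.symm)
      have hna' : ¬ Adj D₃.regions x c := fun h => hna h.symm
      rw [Multiset.card_cons] at hcard2
      rw [Multiset.singleton_add] at hr'
      have hjw : ∀ (y z w : Fin n), joinWalk u' [y, z, w] v' [] = [u', v', u', y, z, w] := by
        intro y z w; simp [joinWalk]
      rcases rot4 hX with ⟨rfl, rfl⟩ | ⟨rfl, rfl⟩ | ⟨rfl, rfl⟩ | ⟨rfl, rfl⟩
      · refine chord_tt hB hwin hG3 (u := c) (t := a) (v := x) (m := [u', v', u']) (P := Q)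
          (J := 0) (Φ := A) (F := G) ?_ hcS' haS' hxS' hca hxa.symm hxc.symm hna hQ (by omega)
          (Rich.mono hA (by omega))
        rw [hr', hjw, add_zero]
        congr 2
        exact coe_rot [u', v', u'] [c, a, x]
      · refine chord_tt hB hwin hG3 (u := u') (t := a) (v := x) (m := [b, u', v']) (P := Q)
          (J := 0) (Φ := A) (F := G) ?_ hcS' haS' hxS' hca hxa.symm hxc.symm hna hQ (by omega)
          (Rich.mono hA (by omega))
        rw [hr', hjw, add_zero]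
        congr 2
        exact coe_rot [u', v'] [u', a, x, b]
      · refine chord_tt hB hwin hG3 (u := x) (t := b) (v := c) (m := [u', v', u']) (P := Q)
          (J := 0) (Φ := A) (F := G) ?_ hxS' hbS' hcS' hxb hbc hxc hna' hQ (by omega)
          (Rich.mono hA (by omega))
        rw [hr', hjw, add_zero]
        congr 2
        exact coe_rot [u', v', u'] [x, b, c]
      · refine chord_tt hB hwin hG3 (u := u') (t := b) (v := c) (m := [a, u', v']) (P := Q)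
          (J := 0) (Φ := A) (F := G) ?_ hxS' hbS' hcS' hxb hbc hxc hna' hQ (by omega)
          (Rich.mono hA (by omega))
        rw [hr', hjw, add_zero]
        congr 2
        exact coe_rot [u', v'] [u', b, c, a]
    · obtain ⟨rfl, Q', rfl, hQ'⟩ := ip_inj_cons hfl
      obtain ⟨rfl, Q, rfl, rfl⟩ := ip_inj_cons hQ'.symm
      have hQ : ∀ p ∈ Q, p ∉ insert x S := fun p hp =>
        hP2 p (Multiset.mem_cons_of_mem (Multiset.mem_cons_of_mem hp))
      have hna := hncx3 u (Multiset.mem_cons_self _ _) (Or.inl rfl)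
      rw [Multiset.card_cons, Multiset.card_cons] at hcard2
      rw [Multiset.singleton_add] at hr'
      have hjw : joinWalk u [] v [] = [u, v] := by simp [joinWalk]
      refine chord_tt hB hwin hG3 (u := c) (t := a) (v := x) (m := [b]) (P := Q)
        (J := {(↑[u, v] : Cycle (Fin n))}) (Φ := A) (F := G) ?_ hcS' haS' hxS' hca hxa.symm
        hxc.symm hna hQ (by omega) (Rich.mono hA (by omega))
      rw [hr', hjw, add_comm (ip Q), Multiset.singleton_add]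
      congr 2
      exact coe_rot [b] [c, a, x]
    · exfalso
      obtain ⟨p, _, hp⟩ := mem_ip.1 hfl
      have := (sing_eq hp).2
      simp at this
  · -- the quadrangle is intact
    have hr5 : D₃.regions = ((↑[b, c, a, x] : Cycle (Fin n)) ::ₘ ip P₂) ::ₘ (Ψ + cs) := by
      rw [hr', hr4, Multiset.add_cons]
    exact attack2 hB hwin hG3 hr5 hbS' hcS' haS' hxS' hbc hca hxa.symm hxb hab hxc.symm hP2
      (by omega)

/-- **TD.** -/
theorem pf_TD (hA : T_TA) (hB : T_TB) : T_TD' := by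
  intro d
  induction d with
  | zero =>
    intro m
    refine ⟨0, ?_⟩
    intro n hn _ D hQ
    obtain ⟨hE, _, S, χ, Φ, G, _, hH, hc, a, b, c, P, J, ha, _⟩ := hQ
    exact Pool.Agent.H69.DG.TF.wins_of_inv hA hB hn _ D
      ⟨hE, S, χ, hH, by simpa using hc, Finset.card_pos.2 ⟨a, ha⟩⟩ le_rfl .spoiler 1
  | succ d ih =>
    intro m
    obtain ⟨M, hM⟩ := ih m
    refine ⟨20 * (M + m + 10), ?_⟩
    intro n hn hQ2 D hQ
    refine step hB hQ2 (fun D hQ => hM n hn ?_ D hQ) hQ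
    intro D hQ
    apply hQ2
    obtain ⟨hE, hI, S, χ, Φ₁, Φ₂, G, hreg, hH, hc, h1, h2⟩ := hQ
    exact ⟨hE, hI, S, χ, Φ₁, Φ₂, G, hreg, hH, by omega, h1, h2⟩

end Pool.Agent.H69.DG.TD
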