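import Pool.Agent.H69.DG.TF
import Pool.Agent.H33.DG.INV

/-!
# Tools for module TD of board dg_modules (MP_3c6455_co)
-/

set_option autoImplicit false

namespace Pool.Agent.H69.DG.TD

open Pool.Agent.H44.DG

variable {n : ℕ}

/-- isolated points -/
def ip {V : Type} (P : Multiset V) : Region V := P.map fun v => (↑[v] : Cycle V)

@[simp] theorem ip_zero {V : Type} : ip (0 : Multiset V) = 0 := rfl
@[simp] theorem ip_cons {V : Type} (v : V) (P : Multiset V) :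
    ip (v ::ₘ P) = (↑[v] : Cycle V) ::ₘ ip P := Multiset.map_cons _ _ _
@[simp] theorem ip_add {V : Type} (P Q : Multiset V) : ip (P + Q) = ip P + ip Q :=
  Multiset.map_add _ _ _

theorem mem_ip {V : Type} {P : Multiset V} {w : Cycle V} :
    w ∈ ip P ↔ ∃ v ∈ P, (↑[v] : Cycle V) = w := Multiset.mem_map

theorem inR_ip {V : Type} {P : Multiset V} {v : V} : (∃ w ∈ ip P, v ∈ w) ↔ v ∈ P := by
  constructor
  · rintro ⟨w, hw, hv⟩
    obtain ⟨p, hp, rfl⟩ := mem_ip.1 hw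
    have : v = p := by simpa using hv
    rwa [this]
  · intro h
    exact ⟨_, mem_ip.2 ⟨v, h, rfl⟩, by simp⟩

theorem not_adj_of_iso {V : Type} {F G : Multiset (Region V)} {Φ R : Region V} {v : V}
    (hI : Iso F) (h1 : F = Φ ::ₘ G) (h2 : Φ = (↑[v] : Cycle V) ::ₘ R) (y : V) : ¬ Adj F v y := by
  obtain ⟨hG, hR⟩ := hI Φ G v R h1 h2
  rw [h1, adj_cons]
  rintro (h | h)
  · rw [adj_sing] at h
    obtain ⟨w, hw, hd⟩ := h
    rw [h2, Multiset.mem_cons] at hw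
    rcases hw with rfl | hw
    · rcases hd with hd | hd
      · rw [isDart_coe] at hd; simp at hd
      · rw [isDart_coe] at hd; simp at hd
    · apply hR
      rw [inR_sing]
      exact ⟨w, hw, hd.elim IsDart.mem_left IsDart.mem_right⟩
  · exact hG h.left

/-- a good drawing with deficiency `d` -/
structure Good (D : Drawing (Fin n)) (S : Finset (Fin n)) (χ : Fin n → ℕ) (d : ℕ) : Prop where
  e : EInv D
  i : Iso D.regions
  h : Hom D.regions S χ
  c : S.card + 1 ≤ (colors S χ).card + d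

theorem Good.draw (hB : T_TB) {D D' : Drawing (Fin n)} {S : Finset (Fin n)} {χ : Fin n → ℕ}
    {d : ℕ} (hG : Good D S χ d) (hd : Draw D D') : Good D' S χ d := by
  have := hB n D D' hG.e hd
  exact ⟨this.1, this.2.1 hG.i, this.2.2 S χ hG.h, hG.c⟩

theorem exists_draw {D : Drawing (Fin n)} (hE : EInv D) {u v : Fin n} (huv : u ≠ v)
    (hna : ¬ Adj D.regions u v) {Φ : Region (Fin n)} {Ψ F : Multiset (Region (Fin n))}
    (hreg : D.regions = Φ ::ₘ F) (hm : RegionMove u v Φ Ψ) :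
    ∃ D' : Drawing (Fin n), Draw D D' ∧ D'.regions = Ψ + F ∧ D'.edges = insert s(u, v) D.edges :=
  ⟨⟨insert s(u, v) D.edges, Ψ + F⟩,
    ⟨u, v, huv, fun h => hna ((hE u v huv).1 h), rfl, Φ, Ψ, F, hreg, rfl, hm⟩, rfl, rfl⟩

/-- joining two isolated points -/
theorem harmless {D : Drawing (Fin n)} (hE : EInv D) (hI : Iso D.regions) {X : Cycle (Fin n)}
    {P : Multiset (Fin n)} {J : Region (Fin n)} {p q : Fin n} {F : Multiset (Region (Fin n))}
    (hreg : D.regions = (X ::ₘ (ip (p ::ₘ q ::ₘ P) + J)) ::ₘ F) :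
    ∃ D' : Drawing (Fin n), Draw D D' ∧
      D'.regions = (X ::ₘ (ip P + ((↑[p, q] : Cycle (Fin n)) ::ₘ J))) ::ₘ F := by
  have hΦ : X ::ₘ (ip (p ::ₘ q ::ₘ P) + J) =
      (↑[p] : Cycle (Fin n)) ::ₘ (X ::ₘ ((↑[q] : Cycle (Fin n)) ::ₘ (ip P + J))) := by
    rw [ip_cons, ip_cons, Multiset.cons_add, Multiset.cons_add, Multiset.cons_swap]
  have hpq : p ≠ q := by
    rintro rfl
    have := (hI _ _ p _ hreg hΦ).2
    apply this
    rw [inR_sing]
    exact ⟨↑[p], by simp, by simp⟩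
  have hna : ¬ Adj D.regions p q := not_adj_of_iso hI hreg hΦ q
  have hm : RegionMove p q (X ::ₘ (ip (p ::ₘ q ::ₘ P) + J))
      {(↑(joinWalk p [] q []) : Cycle (Fin n)) ::ₘ (X ::ₘ (ip P + J))} := by
    have := RegionMove.join (u := p) (v := q) [] [] (X ::ₘ (ip P + J))
    have h2 : (↑[p] : Cycle (Fin n)) ::ₘ (↑[q] : Cycle (Fin n)) ::ₘ (X ::ₘ (ip P + J)) =
        X ::ₘ (ip (p ::ₘ q ::ₘ P) + J) := by
      rw [hΦ, Multiset.cons_swap X]
    rwa [h2] at this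
  obtain ⟨D', hd, hr, _⟩ := exists_draw hE hpq hna hreg hm
  refine ⟨D', hd, ?_⟩
  rw [hr, Multiset.singleton_add]
  congr 1
  have : joinWalk p [] q [] = [p, q] := by simp [joinWalk]
  rw [this, Multiset.cons_swap, ← Multiset.add_cons]

theorem recolor {S S' : Finset (Fin n)} {χ : Fin n → ℕ} (Q : Finset (Fin n)) (w0 : Fin n)
    (hw0 : w0 ∉ S') (hw0Q : w0 ∉ Q) (hQne : Q.Nonempty) (hQS : ∀ v ∈ Q, v ∉ S')
    (hcol : ∀ v, v ∉ S → (v ∈ S' ∨ v ∈ Q) → χ v = χ w0) :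
    ∃ χ' : Fin n → ℕ, (∀ v, v ∉ Q → χ' v = χ v) ∧ (∃ g, ∀ v ∈ Q, χ' v = g) ∧
      (colors S χ).card + 1 ≤ (colors S' χ').card := by
  classical
  set g := Finset.univ.sup χ + 1 with hg
  have hlt : ∀ v, χ v < g := fun v => Nat.lt_succ_of_le (Finset.le_sup (Finset.mem_univ v))
  refine ⟨fun v => if v ∈ Q then g else χ v, fun v hv => by simp [hv], ⟨g, fun v hv => by simp [hv]⟩,
    ?_⟩
  have hgn : g ∉ colors S χ := by
    intro h
    obtain ⟨v, _, hv⟩ := Finset.mem_image.1 h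
    exact absurd hv (hlt v).ne
  rw [← Finset.card_insert_of_notMem hgn]
  refine Finset.card_le_card ?_
  intro c hc
  rw [Finset.mem_insert] at hc
  rcases hc with rfl | hc
  · obtain ⟨v, hv⟩ := hQne
    exact Finset.mem_image.2 ⟨v, by simpa using hQS v hv, by simp [hv]⟩
  · obtain ⟨v, hv, rfl⟩ := Finset.mem_image.1 hc
    have hvS : v ∉ S := by simpa using hv
    by_cases h : v ∈ S' ∨ v ∈ Q
    · exact Finset.mem_image.2 ⟨w0, by simpa using hw0, by simp [hw0Q, hcol v hvS h]⟩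
    · push Not at h
      exact Finset.mem_image.2 ⟨v, by simpa using h.1, by simp [h.2]⟩

/-- a fresh colour for the isolated points of a region all of whose other corners are in `S'` -/
theorem Good.recolor {D : Drawing (Fin n)} {S S' : Finset (Fin n)} {χ : Fin n → ℕ} {d d' : ℕ}
    (hG : Good D S χ d) {X : Cycle (Fin n)} {Q : Multiset (Fin n)} {H : Multiset (Region (Fin n))}
    (hreg : D.regions = (X ::ₘ ip Q) ::ₘ H) (hX : ∀ v ∈ X, v ∈ S') (hSS : S ⊆ S')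
    (w0 : Fin n) (hw0 : w0 ∉ S') (hw0Q : w0 ∉ Q) (hQ : Q ≠ 0) (hQS : ∀ v ∈ Q, v ∉ S')
    (hcol : ∀ v, v ∉ S → (v ∈ S' ∨ v ∈ Q) → χ v = χ w0)
    (hcard : S'.card + d ≤ S.card + 1 + d') : ∃ χ', Good D S' χ' d' := by
  classical
  obtain ⟨χ', h1, ⟨g, hg⟩, h2⟩ := TD.recolor (S := S) (S' := S') (χ := χ) Q.toFinset w0 hw0
    (by simpa using hw0Q) (by
      obtain ⟨v, hv⟩ := Multiset.exists_mem_of_ne_zero hQ
      exact ⟨v, by simpa using hv⟩)
    (fun v hv => hQS v (by simpa using hv))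
    (fun v hv h => hcol v hv (h.imp id (fun h => by simpa using h)))
  refine ⟨χ', hG.e, hG.i, ?_, ?_⟩
  · intro Φ hΦ w hw w' hw' x hx y hy hxS hyS
    have hhom := hG.h
    rw [hreg] at hΦ
    rcases Multiset.mem_cons.1 hΦ with rfl | hΦ'
    · have key : ∀ w ∈ X ::ₘ ip Q, ∀ x ∈ w, x ∉ S' → χ' x = g := by
        intro w hw x hx hxS
        rcases Multiset.mem_cons.1 hw with rfl | hw
        · exact absurd (hX x hx) hxS
        · exact hg x (by simpa using inR_ip.1 ⟨w, hw, hx⟩)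
      rw [key w hw x hx hxS, key w' hw' y hy hyS]
    · have key : ∀ w ∈ Φ, ∀ x ∈ w, x ∉ Q.toFinset := by
        intro w hw x hx hxQ
        rw [Multiset.mem_toFinset] at hxQ
        obtain ⟨Q', rfl⟩ := Multiset.exists_cons_of_mem hxQ
        have hB : X ::ₘ ip (x ::ₘ Q') = (↑[x] : Cycle (Fin n)) ::ₘ (X ::ₘ ip Q') := by
          rw [ip_cons, Multiset.cons_swap]
        exact (hG.i _ _ x _ hreg hB).1 ⟨Φ, hΦ', w, hw, hx⟩
      rw [h1 x (key w hw x hx), h1 y (key w' hw' y hy)]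
      exact hG.h Φ (by rw [hreg]; exact Multiset.mem_cons_of_mem hΦ') w hw w' hw' x hx y hy
        (fun h => hxS (hSS h)) (fun h => hyS (hSS h))
  · have := hG.c
    omega

/-- Isolated points of one region are different. -/
theorem iso_disj {D : Drawing (Fin n)} (hI : Iso D.regions) {X : Cycle (Fin n)}
    {P Q : Multiset (Fin n)} {J : Region (Fin n)} {F : Multiset (Region (Fin n))}
    (hreg : D.regions = (X ::ₘ (ip (P + Q) + J)) ::ₘ F) {v : Fin n} (hv : v ∈ P) : v ∉ Q := by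
  intro hvQ
  obtain ⟨P', rfl⟩ := Multiset.exists_cons_of_mem hv
  have h2 : X ::ₘ (ip (v ::ₘ P' + Q) + J) =
      (↑[v] : Cycle (Fin n)) ::ₘ (X ::ₘ (ip (P' + Q) + J)) := by
    rw [Multiset.cons_add, ip_cons, Multiset.cons_add, Multiset.cons_swap]
  apply (hI _ _ v _ hreg h2).2
  rw [inR_sing]
  refine ⟨↑[v], ?_, by simp⟩
  refine Multiset.mem_cons_of_mem (Multiset.mem_add.2 (Or.inl ?_))
  exact mem_ip.2 ⟨v, Multiset.mem_add.2 (Or.inr hvQ), rfl⟩

/-- The chord that cuts off a triangle. -/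
theorem chord (hB : T_TB) {D : Drawing (Fin n)} {S : Finset (Fin n)} {χ : Fin n → ℕ} {d : ℕ}
    (hG : Good D S χ (d + 1)) {u t v : Fin n} {m : List (Fin n)} {P₁ P₂ : Multiset (Fin n)}
    {J : Region (Fin n)} {F : Multiset (Region (Fin n))}
    (hreg : D.regions = ((↑(u :: t :: v :: m) : Cycle (Fin n)) ::ₘ (ip (P₁ + P₂) + J)) ::ₘ F)
    (hu : u ∈ S) (ht : t ∈ S) (hv : v ∈ S) (huv : u ≠ v) (hna : ¬ Adj D.regions u v)
    (h1 : P₁ ≠ 0) (h2 : P₂ ≠ 0) (hP : ∀ p ∈ P₁ + P₂, p ∉ S) :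
    ∃ (D' : Drawing (Fin n)) (χ' : Fin n → ℕ), Draw D D' ∧
      D'.regions = ((↑[u, t, v] : Cycle (Fin n)) ::ₘ ip P₁) ::ₘ
        ((↑(v :: (m ++ [u])) : Cycle (Fin n)) ::ₘ (ip P₂ + J)) ::ₘ F ∧ Good D' S χ' d := by
  have hm : RegionMove u v ((↑(u :: t :: v :: m) : Cycle (Fin n)) ::ₘ (ip (P₁ + P₂) + J))
      {(↑[u, t, v] : Cycle (Fin n)) ::ₘ ip P₁,
        (↑(v :: (m ++ [u])) : Cycle (Fin n)) ::ₘ (ip P₂ + J)} := by
    have := RegionMove.split (u := u) (v := v) [t] m (ip P₁) (ip P₂ + J)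
    rw [← add_assoc, ← ip_add] at this
    exact this
  obtain ⟨D', hd, hr, _⟩ := exists_draw hG.e huv hna hreg hm
  have hr' : D'.regions = ((↑[u, t, v] : Cycle (Fin n)) ::ₘ ip P₁) ::ₘ
        ((↑(v :: (m ++ [u])) : Cycle (Fin n)) ::ₘ (ip P₂ + J)) ::ₘ F := by
    rw [hr, Multiset.insert_eq_cons, Multiset.cons_add, Multiset.singleton_add]
  obtain ⟨w0, hw0⟩ := Multiset.exists_mem_of_ne_zero h2
  have hG' := hG.draw hB hd
  have hcol : ∀ x ∈ P₁, χ x = χ w0 := by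
    intro x hx
    refine hG.h _ (by rw [hreg]; exact Multiset.mem_cons_self _ _) (↑[x] : Cycle (Fin n)) ?_
      (↑[w0] : Cycle (Fin n)) ?_ x (by simp) w0 (by simp) (hP x (Multiset.mem_add.2 (Or.inl hx)))
      (hP w0 (Multiset.mem_add.2 (Or.inr hw0)))
    · exact Multiset.mem_cons_of_mem (Multiset.mem_add.2 (Or.inl
        (mem_ip.2 ⟨x, Multiset.mem_add.2 (Or.inl hx), rfl⟩)))
    · exact Multiset.mem_cons_of_mem (Multiset.mem_add.2 (Or.inl
        (mem_ip.2 ⟨w0, Multiset.mem_add.2 (Or.inr hw0), rfl⟩)))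
  obtain ⟨χ', hχ'⟩ := Good.recolor (S' := S) (d' := d) hG' hr' (by
      intro y hy
      simp only [Cycle.mem_coe_iff, List.mem_cons, List.not_mem_nil, or_false] at hy
      rcases hy with rfl | rfl | rfl <;> assumption) (Finset.Subset.refl _) w0
    (hP w0 (Multiset.mem_add.2 (Or.inr hw0)))
    (fun h => iso_disj hG.i hreg h hw0) h1
    (fun x hx => hP x (Multiset.mem_add.2 (Or.inl hx)))
    (fun x hx h => h.elim (fun h => absurd h hx) (fun h => hcol x h)) (by omega)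
  exact ⟨D', χ', hd, hr', hχ'⟩

/-- The two edges through a new vertex. -/
theorem two_edges (hB : T_TB) {D : Drawing (Fin n)} {S : Finset (Fin n)} {χ : Fin n → ℕ} {d : ℕ}
    (hG : Good D S χ d) {a b x : Fin n} {l m : List (Fin n)} {P₁ P₂ : Multiset (Fin n)}
    {J : Region (Fin n)} {F : Multiset (Region (Fin n))}
    (hreg : D.regions = ((↑(a :: (l ++ b :: m)) : Cycle (Fin n)) ::ₘ
      (ip (x ::ₘ (P₁ + P₂)) + J)) ::ₘ F)
    (ha : a ∈ S) (hb : b ∈ S) (hm : ∀ y ∈ m, y ∈ S) (hab : a ≠ b)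
    (h1 : P₁ ≠ 0) (h2 : P₂ ≠ 0) (hP : ∀ p ∈ x ::ₘ (P₁ + P₂), p ∉ S) :
    ∃ (D₁ D₂ : Drawing (Fin n)) (χ' : Fin n → ℕ), Draw D D₁ ∧ Draw D₁ D₂ ∧
      D₂.regions = ((↑(b :: (m ++ [a, x])) : Cycle (Fin n)) ::ₘ ip P₂) ::ₘ
        ((↑(x :: a :: (l ++ [b])) : Cycle (Fin n)) ::ₘ (ip P₁ + J)) ::ₘ F ∧
      D₂.edges = insert s(x, b) (insert s(a, x) D.edges) ∧
      (∀ y, ¬ Adj D.regions x y) ∧ ¬ InR F x ∧ Good D₂ (insert x S) χ' d := by
  have hΦ : (↑(a :: (l ++ b :: m)) : Cycle (Fin n)) ::ₘ (ip (x ::ₘ (P₁ + P₂)) + J) =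
      (↑[x] : Cycle (Fin n)) ::ₘ ((↑(a :: (l ++ b :: m)) : Cycle (Fin n)) ::ₘ
        (ip (P₁ + P₂) + J)) := by
    rw [ip_cons, Multiset.cons_add, Multiset.cons_swap]
  have hxS : x ∉ S := hP x (Multiset.mem_cons_self _ _)
  have hax : a ≠ x := fun h => hxS (h ▸ ha)
  have hxb : x ≠ b := fun h => hxS (h ▸ hb)
  have hnax : ∀ y, ¬ Adj D.regions x y := fun y => not_adj_of_iso hG.i hreg hΦ y
  have hnF : ¬ InR F x := (hG.i _ _ x _ hreg hΦ).1
  have hm1 : RegionMove a x ((↑(a :: (l ++ b :: m)) : Cycle (Fin n)) ::ₘ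
      (ip (x ::ₘ (P₁ + P₂)) + J))
      {(↑(joinWalk a (l ++ b :: m) x []) : Cycle (Fin n)) ::ₘ (ip (P₁ + P₂) + J)} := by
    have := RegionMove.join (u := a) (v := x) (l ++ b :: m) [] (ip (P₁ + P₂) + J)
    have h2 : (↑(a :: (l ++ b :: m)) : Cycle (Fin n)) ::ₘ (↑[x] : Cycle (Fin n)) ::ₘ
        (ip (P₁ + P₂) + J) =
        (↑(a :: (l ++ b :: m)) : Cycle (Fin n)) ::ₘ (ip (x ::ₘ (P₁ + P₂)) + J) := by
      rw [ip_cons, Multiset.cons_add]
    rwa [h2] at this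
  obtain ⟨D₁, hd1, hr1, he1⟩ := exists_draw hG.e hax (fun h => hnax a h.symm) hreg hm1
  have hjw : joinWalk a (l ++ b :: m) x [] = [a] ++ (x :: ((a :: l) ++ b :: m)) := by
    simp [joinWalk]
  have hcyc : (↑(joinWalk a (l ++ b :: m) x []) : Cycle (Fin n)) =
      ↑(x :: ((a :: l) ++ b :: (m ++ [a]))) := by
    rw [hjw, coe_rot]
    congr 1
    simp
  rw [Multiset.singleton_add, hcyc] at hr1
  have hG1 := hG.draw hB hd1
  have hna1 : ¬ Adj D₁.regions x b := by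
    rw [← hG1.e x b hxb, he1, Set.mem_insert_iff]
    rintro (h | h)
    · rw [Sym2.eq_iff] at h
      rcases h with ⟨h, _⟩ | ⟨_, h⟩
      · exact hax h.symm
      · exact hab h.symm
    · exact hnax b ((hG.e x b hxb).1 h)
  have hm2 : RegionMove x b ((↑(x :: ((a :: l) ++ b :: (m ++ [a]))) : Cycle (Fin n)) ::ₘ
      (ip (P₁ + P₂) + J))
      {(↑(x :: ((a :: l) ++ [b])) : Cycle (Fin n)) ::ₘ (ip P₁ + J),
        (↑(b :: ((m ++ [a]) ++ [x])) : Cycle (Fin n)) ::ₘ ip P₂} := by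
    have := RegionMove.split (u := x) (v := b) (a :: l) (m ++ [a]) (ip P₁ + J) (ip P₂)
    have h2 : ip P₁ + J + ip P₂ = ip (P₁ + P₂) + J := by
      rw [ip_add, add_assoc, add_assoc, add_comm J]
    rwa [h2] at this
  obtain ⟨D₂, hd2, hr2, he2⟩ := exists_draw hG1.e hxb hna1 hr1 hm2
  have hG2 := hG1.draw hB hd2
  have hr2' : D₂.regions = ((↑(b :: (m ++ [a, x])) : Cycle (Fin n)) ::ₘ ip P₂) ::ₘ
        ((↑(x :: a :: (l ++ [b])) : Cycle (Fin n)) ::ₘ (ip P₁ + J)) ::ₘ F := by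
    rw [hr2, Multiset.insert_eq_cons, Multiset.cons_add, Multiset.singleton_add,
      Multiset.cons_swap]
    simp
  obtain ⟨w0, hw0⟩ := Multiset.exists_mem_of_ne_zero h1
  have hreg' : D.regions = ((↑(a :: (l ++ b :: m)) : Cycle (Fin n)) ::ₘ
      (ip ((x ::ₘ P₂) + P₁) + J)) ::ₘ F := by
    rw [hreg, Multiset.cons_add, add_comm P₂]
  have hw0S : w0 ∉ S := hP w0 (Multiset.mem_cons_of_mem (Multiset.mem_add.2 (Or.inl hw0)))
  have hcol : ∀ y ∈ x ::ₘ P₂, χ y = χ w0 := by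
    intro y hy
    have hy' : y ∈ x ::ₘ (P₁ + P₂) := by
      rcases Multiset.mem_cons.1 hy with h | h
      · exact Multiset.mem_cons.2 (Or.inl h)
      · exact Multiset.mem_cons_of_mem (Multiset.mem_add.2 (Or.inr h))
    refine hG.h _ (by rw [hreg]; exact Multiset.mem_cons_self _ _) (↑[y] : Cycle (Fin n)) ?_
      (↑[w0] : Cycle (Fin n)) ?_ y (by simp) w0 (by simp) (hP y hy') hw0S
    · exact Multiset.mem_cons_of_mem (Multiset.mem_add.2 (Or.inl
        (mem_ip.2 ⟨y, hy', rfl⟩)))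
    · exact Multiset.mem_cons_of_mem (Multiset.mem_add.2 (Or.inl
        (mem_ip.2 ⟨w0, Multiset.mem_cons_of_mem (Multiset.mem_add.2 (Or.inl hw0)), rfl⟩)))
  have hdisj : ∀ y ∈ x ::ₘ P₂, y ∉ P₁ := fun y hy => iso_disj hG.i hreg' hy
  have hxP2 : x ∉ P₂ := by
    have hreg'' : D.regions = ((↑(a :: (l ++ b :: m)) : Cycle (Fin n)) ::ₘ
      (ip ((x ::ₘ P₁) + P₂) + J)) ::ₘ F := by
      rw [hreg, Multiset.cons_add]
    exact iso_disj hG.i hreg'' (Multiset.mem_cons_self _ _)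
  have hw0x : w0 ≠ x := fun h => hdisj x (Multiset.mem_cons_self _ _) (h ▸ hw0)
  obtain ⟨χ', hχ'⟩ := Good.recolor (S' := insert x S) (d' := d) hG2 hr2' (by
      intro y hy
      simp only [Cycle.mem_coe_iff, List.mem_cons, List.mem_append, List.not_mem_nil, or_false]
        at hy
      rcases hy with rfl | hy | rfl | rfl
      · exact Finset.mem_insert_of_mem hb
      · exact Finset.mem_insert_of_mem (hm y hy)
      · exact Finset.mem_insert_of_mem ha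
      · exact Finset.mem_insert_self _ _) (Finset.subset_insert _ _) w0
    (by simp [hw0S, hw0x])
    (fun h => hdisj w0 (Multiset.mem_cons_of_mem h) hw0) h2
    (fun y hy => by
      have hy' : y ∉ S := hP y (Multiset.mem_cons_of_mem (Multiset.mem_add.2 (Or.inr hy)))
      have : y ≠ x := fun h => hxP2 (h ▸ hy)
      simp [hy', this])
    (fun y hy h => by
      apply hcol
      rcases h with h | h
      · rcases Finset.mem_insert.1 h with h | h
        · exact Multiset.mem_cons.2 (Or.inl h)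
        · exact absurd h hy
      · exact Multiset.mem_cons_of_mem h)
    (by rw [Finset.card_insert_of_notMem hxS])
  exact ⟨D₁, D₂, χ', hd1, hd2, hr2', by rw [he2, he1], hnax, hnF, hχ'⟩

end Pool.Agent.H69.DG.TD
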