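import Pool.Agent.H44.DG.Targets2

/-!
# Module TF of board dg_modules (MP_3c6455_co)
-/

set_option autoImplicit false

namespace Pool.Agent.H69.DG.TF

open Pool.Agent.H44.DG

/-- The number of pairs that are not yet joined. -/
noncomputable def free {n : ℕ} (D : Drawing (Fin n)) : ℕ := by
  classical
  exact (Finset.univ.filter fun e : Sym2 (Fin n) => e ∉ D.edges).card

theorem free_lt {n : ℕ} {D D' : Drawing (Fin n)} (h : Draw D D') : free D' < free D := by
  classical
  obtain ⟨u, v, _, hnot, hins, _⟩ := h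
  unfold free
  refine Finset.card_lt_card ?_
  rw [Finset.ssubset_iff_of_subset]
  · refine ⟨s(u, v), ?_, ?_⟩
    · simpa using hnot
    · simp [hins]
  · intro e he
    simp only [Finset.mem_filter, Finset.mem_univ, true_and, hins, Set.mem_insert_iff,
      not_or] at he ⊢
    exact he.2

theorem next_form (t : Player) (k : ℕ) : ∃ t' k', next 1 2 t k = (t', k' + 1) := by
  cases k with
  | zero => cases t <;> exact ⟨_, _, rfl⟩
  | succ k => cases t <;> exact ⟨_, _, rfl⟩

/-- The invariant. -/
def Inv {n : ℕ} (D : Drawing (Fin n)) : Prop :=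
  EInv D ∧ ∃ (S : Finset (Fin n)) (χ : Fin n → ℕ), Hom D.regions S χ ∧
    S.card + 1 ≤ (colors S χ).card ∧ 1 ≤ S.card

theorem wins_of_inv (hA : T_TA) (hB : T_TB) {n : ℕ} (hn : 3 ≤ n) (N : ℕ) :
    ∀ D : Drawing (Fin n), Inv D → free D ≤ N → ∀ (t : Player) (k : ℕ),
      Wins 1 2 .spoiler NotHam (t, k + 1) D := by
  induction N with
  | zero =>
    intro D hD hf t k
    obtain ⟨hE, S, χ, hH, hc, hS⟩ := hD
    refine Wins.over _ D ?_ (hA n D S χ hn hE hH hc hS)
    intro D' hd
    have := free_lt hd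
    omega
  | succ N ih =>
    intro D hD hf t k
    by_cases hstuck : ∀ D', ¬ Draw D D'
    · obtain ⟨hE, S, χ, hH, hc, hS⟩ := hD
      exact Wins.over _ D hstuck (hA n D S χ hn hE hH hc hS)
    · push Not at hstuck
      have hstep : ∀ D', Draw D D' → Wins 1 2 .spoiler NotHam (next 1 2 t k) D' := by
        intro D' hd
        obtain ⟨t', k', htk⟩ := next_form t k
        rw [htk]
        refine ih D' ?_ ?_ t' k'
        · obtain ⟨hE, S, χ, hH, hc, hS⟩ := hD
          have h := hB n D D' hE hd
          exact ⟨h.1, S, χ, h.2.2 S χ hH, hc, hS⟩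
        · have := free_lt hd
          omega
      cases t with
      | spoiler =>
        obtain ⟨D', hd⟩ := hstuck
        exact Wins.own k D D' hd (hstep D' hd)
      | builder =>
        exact Wins.opp Player.builder (by decide) k D hstuck hstep

theorem pf_TF (hA : T_TA) (hB : T_TB) : T_TF := by
  intro n m D hn hQ t k
  obtain ⟨hE, _, S, χ, Φ₁, Φ₂, G, hreg, hH, hc, hR1, hR2⟩ := hQ
  refine wins_of_inv hA hB hn (free D) D ⟨hE, S, χ, hH, by simpa using hc, ?_⟩ le_rfl t k
  obtain ⟨a, b, c, P, J, ha, _⟩ := hR1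
  exact Finset.card_pos.2 ⟨a, ha⟩

end Pool.Agent.H69.DG.TF
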